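import Pool.Agent.H645R2.HT.Digits
import Pool.Agent.Helper446.Oracle

/-! Computability of the colourings `C γ`. -/

namespace Pool.Agent.H645R2.HT

open Pool.Agent.Helper446 Pool.Agent.Helper446.RE Pool.Agent.Helper446.Oracle

theorem pr_pow3 : Primrec (fun i : ℕ => 3 ^ i) := by
  have h : Primrec (fun i : ℕ => (Nat.rec (motive := fun _ => ℕ) 1 (fun _ r => r * 3) i : ℕ)) :=
    Primrec.nat_rec₁ 1 (Primrec.nat_mul.comp Primrec.snd (Primrec.const 3)).to₂
  refine h.of_eq fun i => ?_
  induction i with
  | zero => rfl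
  | succ i ih => rw [pow_succ, ← ih]

theorem pr_dg : Primrec₂ dg := by
  unfold dg Primrec₂
  exact Primrec.nat_mod.comp (Primrec.nat_div.comp Primrec.snd (pr_pow3.comp Primrec.fst))
    (Primrec.const 3)

theorem pr_L : Primrec L := by
  have h : Primrec fun n : ℕ => (List.range n).filterMap
      (fun i => if dg i n = 0 then none else some i) :=
    Primrec.listFilterMap Primrec.list_range
      (Primrec.ite (Primrec.eq.comp (pr_dg.comp Primrec.snd Primrec.fst) (Primrec.const 0))
        (Primrec.const none) (Primrec.option_some.comp Primrec.snd)).to₂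
  refine h.of_eq fun n => ?_
  unfold L
  rw [← List.filterMap_eq_filter]
  congr 1
  funext i
  by_cases hi : dg i n = 0 <;> simp [Option.guard, hi]

@[fun_prop] theorem c_L {α : Type*} [Primcodable α] {f : α → ℕ} (hf : Computable f) :
    Computable fun a => L (f a) := pr_L.to_comp.comp hf

@[fun_prop] theorem c_dg {α : Type*} [Primcodable α] {f g : α → ℕ} (hf : Computable f)
    (hg : Computable g) : Computable fun a => dg (f a) (g a) := pr_dg.to_comp.comp hf hg

theorem headD_eq (l : List ℕ) : l.headD 0 = (l[0]?).getD 0 := by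
  cases l <;> simp

theorem getLastD_eq (l : List ℕ) : l.getLastD 0 = (l[l.length - 1]?).getD 0 := by
  rw [List.getLastD_eq_getLast?, List.getLast?_eq_getElem?]

@[fun_prop] theorem c_getD {α β : Type*} [Primcodable α] [Primcodable β] {f : α → Option β}
    {g : α → β} (hf : Computable f) (hg : Computable g) : Computable fun a => (f a).getD (g a) :=
  Computable.option_getD hf hg

@[fun_prop] theorem c_headD {α : Type*} [Primcodable α] {f : α → List ℕ} (hf : Computable f) :
    Computable fun a => (f a).headD 0 := by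
  simp only [headD_eq]
  fun_prop

@[fun_prop] theorem c_getLastD {α : Type*} [Primcodable α] {f : α → List ℕ} (hf : Computable f) :
    Computable fun a => (f a).getLastD 0 := by
  simp only [getLastD_eq]
  fun_prop

@[fun_prop] theorem c_la {α : Type*} [Primcodable α] {f : α → ℕ} (hf : Computable f) :
    Computable fun a => la (f a) := by
  unfold la
  fun_prop

@[fun_prop] theorem c_mu {α : Type*} [Primcodable α] {f : α → ℕ} (hf : Computable f) :
    Computable fun a => mu (f a) := by
  unfold mu
  fun_prop

@[fun_prop] theorem c_xor {α : Type*} [Primcodable α] {f g : α → Bool} (hf : Computable f)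
    (hg : Computable g) : Computable fun a => xor (f a) (g a) := by
  have h : Primrec₂ xor := Primrec.dom_finite _
  exact h.to_comp.comp hf hg

/-- The gap sum as a fold. -/
def gsf (γ : ℕ → ℕ → Bool) (l : List ℕ) : Bool :=
  (l.foldl (fun (st : (Bool × ℕ) × Bool) b => ((true, b), bif st.1.1 then xor st.2 (γ st.1.2 b) else st.2))
    ((false, 0), false)).2

theorem gsf_aux (γ : ℕ → ℕ → Bool) (l : List ℕ) (a : ℕ) (acc : Bool) :
    (l.foldl (fun (st : (Bool × ℕ) × Bool) b => ((true, b), bif st.1.1 then xor st.2 (γ st.1.2 b) else st.2))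
    ((true, a), acc)).2 = xor acc (gs γ (a :: l)) := by
  induction l generalizing a acc with
  | nil => simp [gs]
  | cons b l ih =>
    rw [List.foldl_cons]
    simp only [cond_true]
    rw [ih]
    simp [gs]

theorem gsf_eq (γ : ℕ → ℕ → Bool) (l : List ℕ) : gsf γ l = gs γ l := by
  cases l with
  | nil => rfl
  | cons a l =>
    unfold gsf
    rw [List.foldl_cons]
    simp only [cond_false]
    rw [gsf_aux]
    simp

theorem c_gs {α : Type*} [Primcodable α] {γ : α → ℕ → ℕ → Bool} {l : α → List ℕ}
    (hγ : Computable fun p : α × ℕ × ℕ => γ p.1 p.2.1 p.2.2) (hl : Computable l) :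
    Computable fun a => gs (γ a) (l a) := by
  have h : Computable fun a => gsf (γ a) (l a) := by
    unfold gsf
    refine Computable.snd.comp ?_
    refine RE.list_foldl (h := fun (a : α) (p : ((Bool × ℕ) × Bool) × ℕ) =>
      ((true, p.2), bif p.1.1.1 then xor p.1.2 (γ a p.1.1.2 p.2) else p.1.2)) hl
      (Computable.const _) ?_
    unfold Computable₂
    have h1 : Computable fun x : α × (((Bool × ℕ) × Bool) × ℕ) =>
        γ x.1 x.2.1.1.2 x.2.2 :=
      hγ.comp (g := fun x : α × (((Bool × ℕ) × Bool) × ℕ) => (x.1, x.2.1.1.2, x.2.2))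
        (by fun_prop)
    fun_prop
  exact h.of_eq fun a => gsf_eq _ _

theorem c_C {γ : ℕ → ℕ → ℕ → ℕ → Bool}
    (hγ : Computable fun p : (ℕ × ℕ) × ℕ × ℕ => γ p.1.1 p.1.2 p.2.1 p.2.2) :
    Computable fun n => C γ n := by
  unfold C
  refine c_gs (γ := fun n => γ (mu n) (la n)) ?_ (by fun_prop)
  exact hγ.comp (g := fun x : ℕ × ℕ × ℕ => ((mu x.1, la x.1), x.2)) (by fun_prop)

end Pool.Agent.H645R2.HT
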