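import Mathlib

/-!
Ternary positions of a natural number, gap sums over lists, and how they behave under sums of
far apart numbers.
-/

namespace Pool.Agent.H645R2.HT

/-- The `i`-th ternary digit of `n`. -/
def dg (i n : ℕ) : ℕ := n / 3 ^ i % 3

/-- The increasing list of the positions of the nonzero ternary digits of `n`. -/
def L (n : ℕ) : List ℕ := (List.range n).filter (fun i => decide (dg i n ≠ 0))

/-- The lowest nonzero ternary position. -/
def la (n : ℕ) : ℕ := (L n).headD 0

/-- The highest nonzero ternary position. -/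
def mu (n : ℕ) : ℕ := (L n).getLastD 0

theorem dg_lt {i n : ℕ} (h : dg i n ≠ 0) : i < n := by
  by_contra hc
  push Not at hc
  apply h
  unfold dg
  have h1 : n < 3 ^ i := lt_of_le_of_lt hc (Nat.lt_pow_self (by norm_num))
  rw [Nat.div_eq_of_lt h1]

theorem mem_L {i n : ℕ} : i ∈ L n ↔ dg i n ≠ 0 := by
  unfold L
  rw [List.mem_filter, List.mem_range, decide_eq_true_iff]
  exact ⟨fun h => h.2, fun h => ⟨dg_lt h, h⟩⟩

theorem L_sorted (n : ℕ) : (L n).SortedLT :=
  ((List.sortedLT_range n).pairwise.filter _).sortedLT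

theorem exists_dg {n : ℕ} (h : 0 < n) : ∃ i, dg i n ≠ 0 := by
  refine ⟨Nat.log 3 n, ?_⟩
  unfold dg
  have h1 : 3 ^ Nat.log 3 n ≤ n := Nat.pow_log_le_self 3 h.ne'
  have h2 : n < 3 ^ (Nat.log 3 n + 1) := Nat.lt_pow_succ_log_self (by norm_num) n
  have h3 : 1 ≤ n / 3 ^ Nat.log 3 n := by
    rw [Nat.one_le_div_iff (by positivity)]; exact h1
  have h4 : n / 3 ^ Nat.log 3 n < 3 := by
    rw [Nat.div_lt_iff_lt_mul (by positivity)]
    rw [pow_succ] at h2
    linarith
  rw [Nat.mod_eq_of_lt h4]
  omega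

theorem L_ne_nil {n : ℕ} (h : 0 < n) : L n ≠ [] := by
  obtain ⟨i, hi⟩ := exists_dg h
  intro hc
  have := mem_L.2 hi
  rw [hc] at this
  simp at this

theorem la_mem {n : ℕ} (h : 0 < n) : la n ∈ L n := by
  unfold la
  have := L_ne_nil h
  cases hl : L n with
  | nil => exact absurd hl this
  | cons a l => simp

theorem mu_mem {n : ℕ} (h : 0 < n) : mu n ∈ L n := by
  unfold mu
  have := L_ne_nil h
  rw [List.getLastD_eq_getLast?, List.getLast?_eq_some_getLast this]
  exact List.getLast_mem this

theorem la_le {n i : ℕ} (hi : i ∈ L n) : la n ≤ i := by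
  unfold la
  have hs := (L_sorted n).pairwise
  cases hl : L n with
  | nil => rw [hl] at hi; simp at hi
  | cons a l =>
    rw [hl] at hi hs
    rw [List.pairwise_cons] at hs
    simp only [List.headD_cons]
    rcases List.mem_cons.1 hi with h | h
    · exact h.ge
    · exact (hs.1 i h).le

theorem le_mu {n i : ℕ} (hi : i ∈ L n) : i ≤ mu n := by
  unfold mu
  have hs := (L_sorted n).pairwise
  have hne : L n ≠ [] := by intro h; rw [h] at hi; simp at hi
  rw [List.getLastD_eq_getLast?, List.getLast?_eq_some_getLast hne]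
  simp only [Option.getD_some]
  have h1 := List.dropLast_append_getLast hne
  rw [← h1] at hi hs
  rw [List.pairwise_append] at hs
  rcases List.mem_append.1 hi with h | h
  · exact (hs.2.2 i h _ (by simp)).le
  · rw [List.mem_singleton] at h; exact h.le

theorem la_le_mu {n : ℕ} (h : 0 < n) : la n ≤ mu n := la_le (mu_mem h)

theorem dg_of_lt_la {n i : ℕ} (hi : i < la n) : dg i n = 0 := by
  by_contra hc
  have := la_le (mem_L.2 hc)
  omega

theorem dg_of_mu_lt {n i : ℕ} (hi : mu n < i) : dg i n = 0 := by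
  by_contra hc
  have := le_mu (mem_L.2 hc)
  omega

theorem dvd_of_dg {n K : ℕ} (h : ∀ i < K, dg i n = 0) : 3 ^ K ∣ n := by
  induction K with
  | zero => simp
  | succ K ih =>
    obtain ⟨q, hq⟩ := ih (fun i hi => h i (by omega))
    have h1 := h K (by omega)
    unfold dg at h1
    rw [hq, Nat.mul_div_cancel_left _ (by positivity)] at h1
    obtain ⟨r, hr⟩ := Nat.dvd_of_mod_eq_zero h1
    rw [hq, hr, pow_succ]
    exact ⟨r, by ring⟩

theorem lt_of_dg {n K : ℕ} (h : ∀ i, K ≤ i → dg i n = 0) : n < 3 ^ K := by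
  by_contra hc
  push Not at hc
  have h1 : 0 < n / 3 ^ K := Nat.div_pos hc (by positivity)
  obtain ⟨i, hi⟩ := exists_dg h1
  apply hi
  have h2 := h (K + i) (by omega)
  unfold dg at h2 ⊢
  rw [Nat.div_div_eq_div_mul, ← pow_add]
  exact h2

theorem dg_add_low {m q K i : ℕ} (hi : i < K) : dg i (m + 3 ^ K * q) = dg i m := by
  unfold dg
  obtain ⟨j, rfl⟩ := Nat.exists_eq_add_of_lt hi
  have h1 : 3 ^ (i + j + 1) * q = 3 ^ i * (3 * (3 ^ j * q)) := by
    rw [pow_succ, pow_add]; ring
  rw [h1, Nat.add_mul_div_left _ _ (by positivity), Nat.add_mul_mod_self_left]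

theorem dg_add_high {m q K i : ℕ} (hm : m < 3 ^ K) (hi : K ≤ i) :
    dg i (m + 3 ^ K * q) = dg i (3 ^ K * q) := by
  unfold dg
  obtain ⟨j, rfl⟩ := Nat.exists_eq_add_of_le hi
  rw [pow_add, ← Nat.div_div_eq_div_mul, ← Nat.div_div_eq_div_mul,
    Nat.add_mul_div_left _ _ (by positivity), Nat.div_eq_of_lt hm,
    Nat.mul_div_cancel_left _ (by positivity), Nat.zero_add]

/-- `n` lies entirely above `m`. -/
def Sep (m n : ℕ) : Prop := mu m < la n

theorem L_add {m n : ℕ} (h : Sep m n) : L (m + n) = L m ++ L n := by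
  unfold Sep at h
  have h1 : 3 ^ la n ∣ n := dvd_of_dg fun i hi => dg_of_lt_la hi
  have h2 : m < 3 ^ la n := lt_of_dg fun i hi => dg_of_mu_lt (by omega)
  obtain ⟨q, hq⟩ := h1
  refine (L_sorted _).eq_of_mem_iff ?_ ?_
  · rw [List.sortedLT_iff_pairwise, List.pairwise_append]
    refine ⟨(L_sorted m).pairwise, (L_sorted n).pairwise, fun a ha b hb => ?_⟩
    have := le_mu ha
    have := la_le hb
    omega
  · intro i
    rw [List.mem_append, mem_L, mem_L, mem_L]
    rcases Nat.lt_or_ge i (la n) with hi | hi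
    · have e1 : dg i (m + n) = dg i m := by
        conv_lhs => rw [hq]
        exact dg_add_low hi
      rw [e1, dg_of_lt_la hi]
      simp
    · have e1 : dg i (m + n) = dg i n := by
        conv_lhs => rw [hq]
        conv_rhs => rw [hq]
        exact dg_add_high h2 hi
      rw [e1, dg_of_mu_lt (n := m) (by omega)]
      simp

theorem la_add {m n : ℕ} (hm : 0 < m) (h : Sep m n) : la (m + n) = la m := by
  unfold la
  rw [L_add h]
  have := L_ne_nil hm
  cases hl : L m with
  | nil => exact absurd hl this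
  | cons a l => simp

theorem mu_add {m n : ℕ} (hn : 0 < n) (h : Sep m n) : mu (m + n) = mu n := by
  unfold mu
  rw [L_add h]
  have := L_ne_nil hn
  rw [List.getLastD_eq_getLast?, List.getLastD_eq_getLast?, List.getLast?_append_of_ne_nil _ this]

/-- Two numbers with the same lowest position and the same lowest digit: the sum has the same
lowest position but a different lowest digit. -/
theorem la_add_same {m n : ℕ} (hm : 0 < m) (hn : 0 < n) (h : la m = la n)
    (hd : dg (la m) m = dg (la n) n) : dg (la (m + n)) (m + n) ≠ dg (la m) m := by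
  have h1 : 3 ^ la m ∣ m := dvd_of_dg fun i hi => dg_of_lt_la hi
  have h2 : 3 ^ la m ∣ n := by rw [h]; exact dvd_of_dg fun i hi => dg_of_lt_la hi
  obtain ⟨q, hq⟩ := h1
  obtain ⟨r, hr⟩ := h2
  have d1 : dg (la m) m = q % 3 := by
    have : m / 3 ^ la m = q := Nat.div_eq_of_eq_mul_right (by positivity) hq
    unfold dg; rw [this]
  have d2 : dg (la m) n = r % 3 := by
    have : n / 3 ^ la m = r := Nat.div_eq_of_eq_mul_right (by positivity) hr
    unfold dg; rw [this]
  have d3 : dg (la m) (m + n) = (q + r) % 3 := by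
    have : m + n = 3 ^ la m * (q + r) := by rw [mul_add, ← hq, ← hr]
    unfold dg; rw [this, Nat.mul_div_cancel_left _ (by positivity)]
  have n1 : dg (la m) m ≠ 0 := mem_L.1 (la_mem hm)
  rw [← h, d2, d1] at hd
  have e : la (m + n) = la m := by
    apply le_antisymm
    · apply la_le
      rw [mem_L, d3]
      rw [d1] at n1
      omega
    · by_contra hc
      push Not at hc
      have h5 : dg (la (m + n)) (m + n) ≠ 0 := mem_L.1 (la_mem (by omega))
      apply h5
      have : m + n = 0 + 3 ^ la m * (q + r) := by rw [zero_add, mul_add, ← hq, ← hr]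
      rw [this]
      rw [this] at hc
      rw [dg_add_low hc]
      simp [dg]
  rw [e, d3, d1]
  rw [d1] at n1
  omega

/-! ### Gap sums -/

/-- The sum (mod 2) of `γ` over the pairs of consecutive elements of a list. -/
def gs (γ : ℕ → ℕ → Bool) : List ℕ → Bool
  | [] => false
  | [_] => false
  | a :: b :: l => xor (γ a b) (gs γ (b :: l))

theorem gs_append (γ : ℕ → ℕ → Bool) (l : List ℕ) (hl : l ≠ []) (r : List ℕ) (hr : r ≠ []) :
    gs γ (l ++ r) = xor (xor (gs γ l) (γ (l.getLastD 0) (r.headD 0))) (gs γ r) := by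
  induction l with
  | nil => exact absurd rfl hl
  | cons a l ih =>
    cases l with
    | nil =>
      cases r with
      | nil => exact absurd rfl hr
      | cons b r => simp [gs]
    | cons b l =>
      have h := ih (by simp)
      have e : (a :: b :: l).getLastD 0 = (b :: l).getLastD 0 := by
        simp [List.getLastD_eq_getLast?, List.getLast?_cons_cons]
      rw [e]
      simp only [List.cons_append, gs] at h ⊢
      rw [h]
      simp only [Bool.xor_assoc]

theorem gs_add {γ : ℕ → ℕ → Bool} {m n : ℕ} (hm : 0 < m) (hn : 0 < n) (h : Sep m n) :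
    gs γ (L (m + n)) = xor (xor (gs γ (L m)) (γ (mu m) (la n))) (gs γ (L n)) := by
  rw [L_add h, gs_append γ _ (L_ne_nil hm) _ (L_ne_nil hn)]
  rfl

theorem gs_congr {γ δ : ℕ → ℕ → Bool} {l : List ℕ} (hl : l.Pairwise (· < ·))
    (h : ∀ a ∈ l, ∀ b ∈ l, a < b → γ a b = δ a b) : gs γ l = gs δ l := by
  induction l with
  | nil => rfl
  | cons a l ih =>
    cases l with
    | nil => rfl
    | cons b l =>
      simp only [gs]
      rw [List.pairwise_cons] at hl
      rw [h a (by simp) b (by simp) (hl.1 b (by simp)),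
        ih hl.2 (fun x hx y hy hxy => h x (List.mem_cons_of_mem _ hx) y
          (List.mem_cons_of_mem _ hy) hxy)]

theorem gs_false {γ : ℕ → ℕ → Bool} {l : List ℕ} (hl : l.Pairwise (· < ·))
    (h : ∀ a ∈ l, ∀ b ∈ l, a < b → γ a b = false) : gs γ l = false := by
  have h1 := gs_congr (δ := fun _ _ => false) hl h
  rw [h1]
  clear h1 h hl
  induction l with
  | nil => rfl
  | cons a l ih =>
    cases l with
    | nil => rfl
    | cons b l => simp only [gs, ih]; rfl

/-- The colouring obtained from `γ s x u v`: sum mod 2 of `γ (mu n) (la n) u v` over the pairs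
`u, v` of consecutive nonzero ternary positions of `n`. -/
def C (γ : ℕ → ℕ → ℕ → ℕ → Bool) (n : ℕ) : Bool := gs (γ (mu n) (la n)) (L n)

theorem sep_add_left {h k l : ℕ} (hk : 0 < k) (hhk : Sep h k) (hkl : Sep k l) :
    Sep (h + k) l := by
  unfold Sep at *
  rw [mu_add hk hhk]; exact hkl

theorem sep_add_right {h k l : ℕ} (hk : 0 < k) (hhk : Sep h k) (hkl : Sep k l) :
    Sep h (k + l) := by
  unfold Sep at *
  rw [la_add hk hkl]; exact hhk

theorem sep_trans {h k l : ℕ} (hk : 0 < k) (hhk : Sep h k) (hkl : Sep k l) : Sep h l := by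
  unfold Sep at *
  have := la_le_mu hk
  omega

theorem sep_lt {h k : ℕ} (hh : 0 < h) (hhk : Sep h k) : la h < la k := by
  unfold Sep at hhk
  have := la_le_mu hh
  omega

theorem sep_ne {h k : ℕ} (hh : 0 < h) (hhk : Sep h k) : h ≠ k := by
  rintro rfl
  exact lt_irrefl _ (sep_lt hh hhk)

/-- The main relation. -/
theorem rel {γ : ℕ → ℕ → ℕ → ℕ → Bool} {h k l : ℕ} (hh : 0 < h) (hk : 0 < k) (hl : 0 < l)
    (hhk : Sep h k) (hkl : Sep k l) (hc : C γ (h + l) = C γ (h + (k + l))) :
    γ (mu l) (la h) (mu h) (la l) =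
      xor (xor (γ (mu l) (la h) (mu h) (la k)) (gs (γ (mu l) (la h)) (L k)))
        (γ (mu l) (la h) (mu k) (la l)) := by
  have hhl := sep_trans hk hhk hkl
  have hhkl := sep_add_right hk hhk hkl
  unfold C at hc
  rw [gs_add hh hl hhl, gs_add hh (by omega) hhkl, gs_add hk hl hkl, mu_add hl hhl, la_add hh hhl,
    mu_add (by omega) hhkl, mu_add hl hkl, la_add hh hhkl, la_add hk hkl] at hc
  revert hc
  generalize gs (γ (mu l) (la h)) (L h) = a
  generalize gs (γ (mu l) (la h)) (L k) = b
  generalize gs (γ (mu l) (la h)) (L l) = d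
  generalize γ (mu l) (la h) (mu h) (la l) = e
  generalize γ (mu l) (la h) (mu h) (la k) = f
  generalize γ (mu l) (la h) (mu k) (la l) = g
  revert a b d e f g
  decide

end Pool.Agent.H645R2.HT
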