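import Pool.Agent.H645R2.HT.Comp

/-! The modulus colouring. -/

namespace Pool.Agent.H645R2.HT

open Pool.Agent.Helper446 Pool.Agent.Helper446.RE Pool.Agent.Helper446.Oracle

/-- Monotone stages. -/
def Mon (W : ℕ → ℕ → Bool) : Prop := ∀ s t z, s ≤ t → W s z = true → W t z = true

/-- Far elements exist. -/
def Far (X : Set ℕ) : Prop := ∀ N, ∃ x ∈ X, N < la x

/-- Positivity. -/
def Ps (X : Set ℕ) : Prop := ∀ x ∈ X, 0 < x

/-- Equality of the colours of `h`, `h + l` for separated elements of `X`. -/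
def Eq2 (c : ℕ → Bool) (X : Set ℕ) : Prop := ∀ h ∈ X, ∀ l ∈ X, Sep h l → c h = c (h + l)

/-- Equality of the colours of `h + l`, `h + k + l` for separated elements of `X`. -/
def Eq3 (c : ℕ → Bool) (X : Set ℕ) : Prop :=
  ∀ h ∈ X, ∀ k ∈ X, ∀ l ∈ X, Sep h k → Sep k l → c (h + l) = c (h + (k + l))

/-- New enumeration of some `z ≤ x` between the stages `u` and `v`. -/
def g1 (W : ℕ → ℕ → Bool) (_s x u v : ℕ) : Bool := exB (fun z => W v z && !(W u z)) (x + 1)

theorem g1_iff {W : ℕ → ℕ → Bool} {s x u v : ℕ} :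
    g1 W s x u v = true ↔ ∃ z ≤ x, W v z = true ∧ W u z = false := by
  unfold g1
  rw [exB_iff]
  simp only [Bool.and_eq_true, Bool.not_eq_true', Nat.lt_succ_iff]

/-- `mu l` bounds the modulus of `W` up to `la l`. -/
def ModOK (W : ℕ → ℕ → Bool) (X : Set ℕ) : Prop :=
  ∀ h ∈ X, ∀ z ≤ la h, ∀ s, W s z = true → W (mu h) z = true

theorem exists_stage {W : ℕ → ℕ → Bool} (hW : Mon W) (x : ℕ) :
    ∃ N, ∀ z ≤ x, ∀ s, W s z = true → W N z = true := by
  induction x with
  | zero =>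
    by_cases h : ∃ s, W s 0 = true
    · obtain ⟨s, hs⟩ := h
      exact ⟨s, fun z hz _ _ => by rw [Nat.le_zero.1 hz]; exact hs⟩
    · exact ⟨0, fun z hz s hs => absurd ⟨s, by rw [← Nat.le_zero.1 hz]; exact hs⟩ h⟩
  | succ x ih =>
    obtain ⟨N, hN⟩ := ih
    by_cases h : ∃ s, W s (x + 1) = true
    · obtain ⟨s, hs⟩ := h
      refine ⟨max N s, fun z hz t ht => ?_⟩
      rcases Nat.lt_or_ge z (x + 1) with h1 | h1
      · exact hW _ _ _ (le_max_left _ _) (hN z (by omega) t ht)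
      · have : z = x + 1 := by omega
        rw [this]
        exact hW _ _ _ (le_max_right _ _) hs
    · refine ⟨N, fun z hz t ht => ?_⟩
      rcases Nat.lt_or_ge z (x + 1) with h1 | h1
      · exact hN z (by omega) t ht
      · have : z = x + 1 := by omega
        exact absurd ⟨t, by rw [← this]; exact ht⟩ h

theorem modOK {W : ℕ → ℕ → Bool} (hW : Mon W) {X : Set ℕ} (hp : Ps X) (hf : Far X)
    (he : Eq2 (C (g1 W)) X) : ModOK W X := by
  intro h hh z hz s hs
  by_contra hc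
  rw [Bool.not_eq_true] at hc
  obtain ⟨N, hN⟩ := exists_stage hW (la h)
  obtain ⟨l, hl, hll⟩ := hf (max (max N s) (mu h))
  have h1 : Sep h l := by unfold Sep; omega
  have h2 := he h hh l hl h1
  unfold C at h2
  rw [gs_add (hp h hh) (hp l hl) h1, mu_add (hp l hl) h1, la_add (hp h hh) h1] at h2
  have e1 : gs (g1 W (mu l) (la h)) (L l) = false := by
    refine gs_false (L_sorted l).pairwise fun a ha b hb _ => ?_
    rw [← Bool.not_eq_true, g1_iff]
    rintro ⟨z', hz', h3, h4⟩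
    have h5 := hN z' hz' b h3
    have h6 := hW N a z' (by have := la_le ha; omega) h5
    rw [h4] at h6; cases h6
  have e2 : g1 W (mu l) (la h) (mu h) (la l) = true :=
    g1_iff.2 ⟨z, hz, hW s _ z (by omega) hs, hc⟩
  have e3 : gs (g1 W (mu h) (la h)) (L h) = gs (g1 W (mu l) (la h)) (L h) := rfl
  rw [e1, e2, e3] at h2
  revert h2
  generalize gs (g1 W (mu l) (la h)) (L h) = a
  revert a
  decide

theorem c_g1 {W : ℕ → ℕ → Bool} (hW : Computable fun p : ℕ × ℕ => W p.1 p.2) :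
    Computable fun p : (ℕ × ℕ) × ℕ × ℕ => g1 W p.1.1 p.1.2 p.2.1 p.2.2 := by
  unfold g1
  refine computable_exB (q := fun (p : (ℕ × ℕ) × ℕ × ℕ) z => W p.2.2 z && !(W p.2.1 z)) ?_
    (by fun_prop)
  unfold Computable₂
  have h1 := hW.comp (g := fun x : ((ℕ × ℕ) × ℕ × ℕ) × ℕ => (x.1.2.2, x.2)) (by fun_prop)
  have h2 := hW.comp (g := fun x : ((ℕ × ℕ) × ℕ × ℕ) × ℕ => (x.1.2.1, x.2)) (by fun_prop)
  dsimp only at h1 h2
  fun_prop

end Pool.Agent.H645R2.HT
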