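import Pool.Agent.H645R2.HT.Mod

/-! Solutions compute `Σ⁰₂` sets. -/

namespace Pool.Agent.H645R2.HT

open Pool.Agent.Helper446 Pool.Agent.Helper446.RE Pool.Agent.Helper446.Oracle

/-- `y` is in `A_u` as seen at stage `s`: some `z ≤ u` with `p z = y` has not been enumerated by
stage `s`. -/
def inA (W : ℕ → ℕ → Bool) (p : ℕ → ℕ) (s u y : ℕ) : Bool :=
  exB (fun z => decide (p z = y) && !(W s z)) (u + 1)

theorem inA_iff {W : ℕ → ℕ → Bool} {p : ℕ → ℕ} {s u y : ℕ} :
    inA W p s u y = true ↔ ∃ z ≤ u, p z = y ∧ W s z = false := by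
  unfold inA
  rw [exB_iff]
  simp only [Bool.and_eq_true, Bool.not_eq_true', Nat.lt_succ_iff, decide_eq_true_eq]

/-- `A_u`: some `z ≤ u` with `p z = y` is never enumerated. -/
def TA (W : ℕ → ℕ → Bool) (p : ℕ → ℕ) (u y : ℕ) : Prop :=
  ∃ z ≤ u, p z = y ∧ ∀ s, W s z = false

/-- `A`: some `z` with `p z = y` is never enumerated. -/
def A (W : ℕ → ℕ → Bool) (p : ℕ → ℕ) (y : ℕ) : Prop := ∃ z, p z = y ∧ ∀ s, W s z = false

/-- Difference of `A_u` and `A_v` below `x`, seen at stage `s`. -/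
def g2 (W : ℕ → ℕ → Bool) (p : ℕ → ℕ) (s x u v : ℕ) : Bool :=
  exB (fun y => xor (inA W p s u y) (inA W p s v y)) x

open Classical in
/-- True difference of `A_u` and `A_v` below `x`. -/
noncomputable def T2 (W : ℕ → ℕ → Bool) (p : ℕ → ℕ) (x u v : ℕ) : Bool :=
  decide (∃ y < x, ¬ (TA W p u y ↔ TA W p v y))

variable {W : ℕ → ℕ → Bool} {p : ℕ → ℕ} {X : Set ℕ}

theorem inA_true (hM : ModOK W X) {l u y : ℕ} (hl : l ∈ X) (hu : u ≤ la l) :
    inA W p (mu l) u y = true ↔ TA W p u y := by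
  rw [inA_iff]
  unfold TA
  constructor
  · rintro ⟨z, hz, h1, h2⟩
    refine ⟨z, hz, h1, fun s => ?_⟩
    by_contra hc
    rw [Bool.not_eq_false] at hc
    have := hM l hl z (by omega) s hc
    rw [h2] at this; cases this
  · rintro ⟨z, hz, h1, h2⟩
    exact ⟨z, hz, h1, h2 _⟩

theorem g2_true (hM : ModOK W X) {l x u v : ℕ} (hl : l ∈ X) (hu : u ≤ la l) (hv : v ≤ la l) :
    g2 W p (mu l) x u v = T2 W p x u v := by
  classical
  rw [Bool.eq_iff_iff]
  unfold g2 T2
  rw [exB_iff, decide_eq_true_iff]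
  refine exists_congr fun y => and_congr_right fun _ => ?_
  rw [← inA_true hM hl hu, ← inA_true hM hl hv]
  cases inA W p (mu l) u y <;> cases inA W p (mu l) v y <;> simp

/-- The computable test `r h k l`. -/
def rr (W : ℕ → ℕ → Bool) (p : ℕ → ℕ) (h k l : ℕ) : Bool :=
  xor (g2 W p (mu l) (la h) (mu h) (la k)) (gs (g2 W p (mu l) (la h)) (L k))

/-- Its true value. -/
noncomputable def rt (W : ℕ → ℕ → Bool) (p : ℕ → ℕ) (h k : ℕ) : Bool :=
  xor (T2 W p (la h) (mu h) (la k)) (gs (T2 W p (la h)) (L k))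

theorem rr_eq (hp : Ps X) (hM : ModOK W X) {h k l : ℕ} (hk : k ∈ X) (hl : l ∈ X)
    (hhk : Sep h k) (hkl : Sep k l) : rr W p h k l = rt W p h k := by
  unfold rr rt
  have h1 := la_le_mu (hp k hk)
  unfold Sep at hhk hkl
  rw [g2_true hM hl (by omega) (by omega)]
  congr 1
  refine gs_congr (L_sorted k).pairwise fun a ha b hb _ => ?_
  have := le_mu ha
  have := le_mu hb
  exact g2_true hM hl (by omega) (by omega)

theorem rel2 (hp : Ps X) (hM : ModOK W X) (he : Eq3 (C (g2 W p)) X) {h k l : ℕ} (hh : h ∈ X)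
    (hk : k ∈ X) (hl : l ∈ X) (hhk : Sep h k) (hkl : Sep k l) :
    T2 W p (la h) (mu h) (la l) = xor (rt W p h k) (T2 W p (la h) (mu k) (la l)) := by
  have h1 := rel (hp h hh) (hp k hk) (hp l hl) hhk hkl (he h hh k hk l hl hhk hkl)
  have hhl := sep_trans (hp k hk) hhk hkl
  have h3 : xor (g2 W p (mu l) (la h) (mu h) (la k)) (gs (g2 W p (mu l) (la h)) (L k)) =
    rt W p h k := rr_eq hp hM hk hl hhk hkl
  rw [h3] at h1
  unfold Sep at hhl hkl
  rw [g2_true hM hl (by omega) le_rfl, g2_true hM hl (by omega) le_rfl] at h1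
  exact h1

/-- `A_u` agrees with `A` below `x`. -/
def Settled (W : ℕ → ℕ → Bool) (p : ℕ → ℕ) (x u : ℕ) : Prop := ∀ y < x, (TA W p u y ↔ A W p y)

theorem TA_mono {u v y : ℕ} (huv : u ≤ v) (h : TA W p u y) : TA W p v y := by
  obtain ⟨z, hz, h1⟩ := h
  exact ⟨z, by omega, h1⟩

theorem TA_A {u y : ℕ} (h : TA W p u y) : A W p y := by
  obtain ⟨z, _, h1⟩ := h
  exact ⟨z, h1⟩

theorem exists_settled (x : ℕ) : ∃ N, ∀ u, N ≤ u → Settled W p x u := by
  induction x with
  | zero => exact ⟨0, fun u _ y hy => absurd hy (by omega)⟩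
  | succ x ih =>
    obtain ⟨N, hN⟩ := ih
    by_cases h : A W p x
    · obtain ⟨z, h1, h2⟩ := h
      refine ⟨max N z, fun u hu y hy => ?_⟩
      rcases Nat.lt_or_ge y x with h3 | h3
      · exact hN u (by omega) y h3
      · have : y = x := by omega
        subst this
        exact ⟨TA_A, fun _ => ⟨z, by omega, h1, h2⟩⟩
    · refine ⟨N, fun u hu y hy => ?_⟩
      rcases Nat.lt_or_ge y x with h3 | h3
      · exact hN u (by omega) y h3
      · have : y = x := by omega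
        subst this
        exact ⟨TA_A, fun h' => absurd h' h⟩

theorem T2_false_iff {x u v : ℕ} : T2 W p x u v = false ↔ ∀ y < x, (TA W p u y ↔ TA W p v y) := by
  unfold T2
  rw [decide_eq_false_iff_not]
  push Not
  exact Iff.rfl

/-- A positive test certifies that `mu k` is settled. -/
theorem settled_of_rt (hp : Ps X) (hf : Far X) (hM : ModOK W X) (he : Eq3 (C (g2 W p)) X)
    {h k : ℕ} (hh : h ∈ X) (hk : k ∈ X) (hhk : Sep h k) (hr : rt W p h k = true) :
    Settled W p (la h) (mu k) := by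
  obtain ⟨N, hN⟩ := exists_settled (W := W) (p := p) (la h)
  obtain ⟨l, hl, hll⟩ := hf (max N (mu k))
  have hkl : Sep k l := by unfold Sep; omega
  have h1 := rel2 hp hM he hh hk hl hhk hkl
  rw [hr] at h1
  have hs := hN (la l) (by omega)
  cases h2 : T2 W p (la h) (mu k) (la l)
  · rw [T2_false_iff] at h2
    intro y hy
    rw [h2 y hy]
    exact hs y hy
  · rw [h2] at h1
    have h3 : T2 W p (la h) (mu h) (la l) = false := by rw [h1]; rfl
    rw [T2_false_iff] at h3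
    intro y hy
    refine ⟨TA_A, fun ha => ?_⟩
    have h4 := (hs y hy).2 ha
    have h5 := (h3 y hy).2 h4
    refine TA_mono ?_ h5
    have := sep_lt (hp h hh) hhk
    have := la_le_mu (hp k hk)
    unfold Sep at hhk
    omega

/-- If `mu h` is not settled, the test is positive for all far `k`. -/
theorem rt_of_not_settled (hp : Ps X) (hf : Far X) (hM : ModOK W X) (he : Eq3 (C (g2 W p)) X)
    {h : ℕ} (hh : h ∈ X) (hn : ¬ Settled W p (la h) (mu h)) :
    ∃ k ∈ X, Sep h k ∧ rt W p h k = true := by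
  obtain ⟨N, hN⟩ := exists_settled (W := W) (p := p) (la h)
  obtain ⟨k, hk, hkk⟩ := hf (max N (mu h))
  have hhk : Sep h k := by unfold Sep; omega
  obtain ⟨l, hl, hll⟩ := hf (mu k)
  have hkl : Sep k l := by unfold Sep; omega
  have h1 := rel2 hp hM he hh hk hl hhk hkl
  have hkm := la_le_mu (hp k hk)
  have hs1 := hN (mu k) (by omega)
  have hs2 := hN (la l) (by omega)
  have h2 : T2 W p (la h) (mu k) (la l) = false := by
    rw [T2_false_iff]
    intro y hy
    rw [hs1 y hy, hs2 y hy]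
  have h3 : T2 W p (la h) (mu h) (la l) = true := by
    rw [← Bool.not_eq_false, T2_false_iff]
    intro hc
    apply hn
    intro y hy
    rw [hc y hy]
    exact hs2 y hy
  refine ⟨k, hk, hhk, ?_⟩
  rw [h2, h3] at h1
  cases h4 : rt W p h k
  · rw [h4] at h1; cases h1
  · rfl

section comp

variable {α : Type*} [Primcodable α]

theorem c_inA (hW : Computable fun q : ℕ × ℕ => W q.1 q.2) (hpc : Computable p)
    {f g i : α → ℕ} (hf : Computable f) (hg : Computable g) (hi : Computable i) :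
    Computable fun a => inA W p (f a) (g a) (i a) := by
  unfold inA
  refine computable_exB (q := fun (a : α) z => decide (p z = i a) && !(W (f a) z)) ?_
    (by fun_prop)
  unfold Computable₂
  have h1 := hW.comp (g := fun x : α × ℕ => (f x.1, x.2)) (by fun_prop)
  have h2 : Computable fun x : α × ℕ => decide (p x.2 = i x.1) :=
    cdecide (cp_eq (f := fun x : α × ℕ => p x.2) (g := fun x => i x.1) (by fun_prop)
      (by fun_prop))
  dsimp only at h1 h2
  fun_prop

theorem c_g2 (hW : Computable fun q : ℕ × ℕ => W q.1 q.2) (hpc : Computable p)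
    {f g i j : α → ℕ} (hf : Computable f) (hg : Computable g) (hi : Computable i)
    (hj : Computable j) :
    Computable fun a => g2 W p (f a) (g a) (i a) (j a) := by
  unfold g2
  refine computable_exB (q := fun (a : α) y =>
    xor (inA W p (f a) (i a) y) (inA W p (f a) (j a) y)) ?_ (by fun_prop)
  unfold Computable₂
  have h1 : Computable fun x : α × ℕ => inA W p (f x.1) (i x.1) x.2 :=
    c_inA hW hpc (by fun_prop) (by fun_prop) (by fun_prop)
  have h2 : Computable fun x : α × ℕ => inA W p (f x.1) (j x.1) x.2 :=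
    c_inA hW hpc (by fun_prop) (by fun_prop) (by fun_prop)
  fun_prop

theorem c_rr (hW : Computable fun q : ℕ × ℕ => W q.1 q.2) (hpc : Computable p)
    {f g i : α → ℕ} (hf : Computable f) (hg : Computable g) (hi : Computable i) :
    Computable fun a => rr W p (f a) (g a) (i a) := by
  unfold rr
  refine c_xor (c_g2 hW hpc (by fun_prop) (by fun_prop) (by fun_prop) (by fun_prop)) ?_
  refine c_gs (γ := fun a => g2 W p (mu (i a)) (la (f a))) ?_ (by fun_prop)
  exact c_g2 hW hpc (by fun_prop) (by fun_prop) (by fun_prop) (by fun_prop)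

end comp

/-- Solutions compute `A`. -/
theorem computes (hW : Computable fun q : ℕ × ℕ => W q.1 q.2) (hpc : Computable p) (hp : Ps X)
    (hf : Far X) (hM : ModOK W X) (he : Eq3 (C (g2 W p)) X) :
    REIn X (fun y => A W p y) ∧ REIn X (fun y => ¬ A W p y) := by
  by_cases hcase : ∀ N, ∃ h ∈ X, N < la h ∧ ¬ Settled W p (la h) (mu h)
  · -- use positive tests
    have key : ∀ b : Bool, REIn X (fun y => ∃ q : ℕ × ℕ × ℕ, q.1 ∈ X ∧ q.2.1 ∈ X ∧ q.2.2 ∈ X ∧
        ((mu q.1 < la q.2.1 ∧ mu q.2.1 < la q.2.2) ∧ y < la q.1 ∧ rr W p q.1 q.2.1 q.2.2 = true ∧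
          inA W p (mu q.2.2) (mu q.2.1) y = b)) := by
      intro b
      refine REIn.ex (S := fun y (q : ℕ × ℕ × ℕ) => q.1 ∈ X ∧ q.2.1 ∈ X ∧ q.2.2 ∈ X ∧
        ((mu q.1 < la q.2.1 ∧ mu q.2.1 < la q.2.2) ∧ y < la q.1 ∧ rr W p q.1 q.2.1 q.2.2 = true ∧
          inA W p (mu q.2.2) (mu q.2.1) y = b)) ?_
      refine (REIn.mem (f := fun x : ℕ × ℕ × ℕ × ℕ => x.2.1) (by fun_prop)).and
        ((REIn.mem (f := fun x : ℕ × ℕ × ℕ × ℕ => x.2.2.1) (by fun_prop)).and
        ((REIn.mem (f := fun x : ℕ × ℕ × ℕ × ℕ => x.2.2.2) (by fun_prop)).and (REIn.of_re ?_)))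
      refine RE.and (RE.and (RE.lt (by fun_prop) (by fun_prop)) (RE.lt (by fun_prop)
        (by fun_prop))) (RE.and (RE.lt (by fun_prop) (by fun_prop)) (RE.and (RE.eq ?_
        (by fun_prop)) (RE.eq ?_ (by fun_prop))))
      · exact c_rr hW hpc (by fun_prop) (by fun_prop) (by fun_prop)
      · exact c_inA hW hpc (by fun_prop) (by fun_prop) (by fun_prop)
    have snd : ∀ y (q : ℕ × ℕ × ℕ), (q.1 ∈ X ∧ q.2.1 ∈ X ∧ q.2.2 ∈ X ∧
        ((mu q.1 < la q.2.1 ∧ mu q.2.1 < la q.2.2) ∧ y < la q.1 ∧ rr W p q.1 q.2.1 q.2.2 = true)) →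
        (inA W p (mu q.2.2) (mu q.2.1) y = true ↔ A W p y) := by
      rintro y ⟨h, k, l⟩ ⟨hh, hk, hl, ⟨hhk, hkl⟩, hy, hr⟩
      dsimp only at *
      rw [inA_true hM hl (by omega)]
      rw [rr_eq hp hM hk hl hhk hkl] at hr
      exact settled_of_rt hp hf hM he hh hk hhk hr y hy
    have ext : ∀ y, ∃ q : ℕ × ℕ × ℕ, (q.1 ∈ X ∧ q.2.1 ∈ X ∧ q.2.2 ∈ X ∧
        ((mu q.1 < la q.2.1 ∧ mu q.2.1 < la q.2.2) ∧ y < la q.1 ∧
          rr W p q.1 q.2.1 q.2.2 = true)) := by
      intro y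
      obtain ⟨h, hh, hy, hn⟩ := hcase y
      obtain ⟨k, hk, hhk, hr⟩ := rt_of_not_settled hp hf hM he hh hn
      obtain ⟨l, hl, hll⟩ := hf (mu k)
      refine ⟨(h, k, l), hh, hk, hl, ⟨hhk, hll⟩, hy, ?_⟩
      dsimp only
      rw [rr_eq hp hM hk hl hhk hll]
      exact hr
    constructor
    · refine (key true).of_eq fun y => ?_
      constructor
      · rintro ⟨q, h1, h2, h3, h4, h5, h6, h7⟩
        exact (snd y q ⟨h1, h2, h3, h4, h5, h6⟩).1 h7
      · intro ha
        obtain ⟨q, h1, h2, h3, h4, h5, h6⟩ := ext y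
        exact ⟨q, h1, h2, h3, h4, h5, h6, (snd y q ⟨h1, h2, h3, h4, h5, h6⟩).2 ha⟩
    · refine (key false).of_eq fun y => ?_
      constructor
      · rintro ⟨q, h1, h2, h3, h4, h5, h6, h7⟩ ha
        rw [(snd y q ⟨h1, h2, h3, h4, h5, h6⟩).2 ha] at h7
        cases h7
      · intro ha
        obtain ⟨q, h1, h2, h3, h4, h5, h6⟩ := ext y
        refine ⟨q, h1, h2, h3, h4, h5, h6, ?_⟩
        rw [← Bool.not_eq_true]
        exact fun h => ha ((snd y q ⟨h1, h2, h3, h4, h5, h6⟩).1 h)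
  · push Not at hcase
    obtain ⟨N, hN⟩ := hcase
    have key : ∀ b : Bool, REIn X (fun y => ∃ q : ℕ × ℕ, q.1 ∈ X ∧ q.2 ∈ X ∧
        (mu q.1 < la q.2 ∧ y < la q.1 ∧ N < la q.1 ∧
          inA W p (mu q.2) (mu q.1) y = b)) := by
      intro b
      refine REIn.ex (S := fun y (q : ℕ × ℕ) => q.1 ∈ X ∧ q.2 ∈ X ∧
        (mu q.1 < la q.2 ∧ y < la q.1 ∧ N < la q.1 ∧
          inA W p (mu q.2) (mu q.1) y = b)) ?_
      refine (REIn.mem (f := fun x : ℕ × ℕ × ℕ => x.2.1) (by fun_prop)).and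
        ((REIn.mem (f := fun x : ℕ × ℕ × ℕ => x.2.2) (by fun_prop)).and (REIn.of_re ?_))
      refine RE.and (RE.lt (by fun_prop) (by fun_prop)) (RE.and (RE.lt (by fun_prop)
        (by fun_prop)) (RE.and (RE.lt (by fun_prop) (by fun_prop)) (RE.eq ?_ (by fun_prop))))
      exact c_inA hW hpc (by fun_prop) (by fun_prop) (by fun_prop)
    have snd : ∀ y (q : ℕ × ℕ), (q.1 ∈ X ∧ q.2 ∈ X ∧
        (mu q.1 < la q.2 ∧ y < la q.1 ∧ N < la q.1)) →
        (inA W p (mu q.2) (mu q.1) y = true ↔ A W p y) := by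
      rintro y ⟨h, l⟩ ⟨hh, hl, hhl, hy, hn⟩
      dsimp only at *
      rw [inA_true hM hl (by omega)]
      exact hN h hh hn y hy
    have ext : ∀ y, ∃ q : ℕ × ℕ, (q.1 ∈ X ∧ q.2 ∈ X ∧
        (mu q.1 < la q.2 ∧ y < la q.1 ∧ N < la q.1)) := by
      intro y
      obtain ⟨h, hh, hy⟩ := hf (max y N)
      obtain ⟨l, hl, hll⟩ := hf (mu h)
      exact ⟨(h, l), hh, hl, hll, by dsimp only; omega, by dsimp only; omega⟩
    constructor
    · refine (key true).of_eq fun y => ?_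
      constructor
      · rintro ⟨q, h1, h2, h3, h4, h5, h7⟩
        exact (snd y q ⟨h1, h2, h3, h4, h5⟩).1 h7
      · intro ha
        obtain ⟨q, h1, h2, h3, h4, h5⟩ := ext y
        exact ⟨q, h1, h2, h3, h4, h5, (snd y q ⟨h1, h2, h3, h4, h5⟩).2 ha⟩
    · refine (key false).of_eq fun y => ?_
      constructor
      · rintro ⟨q, h1, h2, h3, h4, h5, h7⟩ ha
        rw [(snd y q ⟨h1, h2, h3, h4, h5⟩).2 ha] at h7
        cases h7
      · intro ha
        obtain ⟨q, h1, h2, h3, h4, h5⟩ := ext y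
        refine ⟨q, h1, h2, h3, h4, h5, ?_⟩
        rw [← Bool.not_eq_true]
        exact fun h => ha ((snd y q ⟨h1, h2, h3, h4, h5⟩).1 h)

end Pool.Agent.H645R2.HT
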