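import Pool.Agent.H645R2.HT.Mod

/-! No solution is `Σ⁰₃`. -/

namespace Pool.Agent.H645R2.HT

open Pool.Agent.Helper446 Pool.Agent.Helper446.RE Pool.Agent.Helper446.Oracle

section comb

variable {α β : Type*} [Primcodable α] [Primcodable β]

/-- The least `i < n` with `q i`, or `n` if there is none. -/
def lst (q : ℕ → Bool) : ℕ → ℕ
  | 0 => 0
  | n + 1 => bif exB q n then lst q n else bif q n then n else n + 1

theorem lst_spec (q : ℕ → Bool) (n : ℕ) :
    (lst q n < n ∧ q (lst q n) = true ∧ ∀ i < lst q n, q i = false) ∨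
      (lst q n = n ∧ ∀ i < n, q i = false) := by
  induction n with
  | zero => right; exact ⟨rfl, fun i hi => absurd hi (by omega)⟩
  | succ n ih =>
    simp only [lst]
    cases h : exB q n
    · have h1 : ∀ i < n, q i = false := by
        intro i hi
        by_contra hc
        rw [Bool.not_eq_false] at hc
        have : exB q n = true := (exB_iff q n).2 ⟨i, hi, hc⟩
        rw [h] at this; cases this
      cases h2 : q n
      · right
        simp only [cond_false]
        refine ⟨trivial, fun i hi => ?_⟩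
        rcases Nat.lt_succ_iff_lt_or_eq.1 hi with h3 | h3
        · exact h1 i h3
        · rw [h3]; exact h2
      · left
        simp only [cond_false, cond_true]
        exact ⟨Nat.lt_succ_self n, h2, h1⟩
    · obtain ⟨i, hi, hqi⟩ := (exB_iff q n).1 h
      rcases ih with ⟨h1, h2, h3⟩ | ⟨h1, h2⟩
      · left
        simp only [cond_true]
        exact ⟨by omega, h2, h3⟩
      · rw [h2 i hi] at hqi; cases hqi

theorem lst_lt_of {q : ℕ → Bool} {n i : ℕ} (hi : i < n) (hq : q i = true) :
    lst q n ≤ i ∧ lst q n < n ∧ q (lst q n) = true := by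
  rcases lst_spec q n with ⟨h1, h2, h3⟩ | ⟨h1, h2⟩
  · refine ⟨?_, h1, h2⟩
    by_contra hc
    have := h3 i (by omega)
    rw [hq] at this; cases this
  · rw [h2 i hi] at hq; cases hq

theorem lst_of_lt {q : ℕ → Bool} {n : ℕ} (h : lst q n < n) : q (lst q n) = true := by
  rcases lst_spec q n with ⟨_, h2, _⟩ | ⟨h1, _⟩
  · exact h2
  · omega

theorem c_lst {q : α → ℕ → Bool} (hq : Computable fun p : α × ℕ => q p.1 p.2) {f : α → ℕ}
    (hf : Computable f) : Computable fun a => lst (q a) (f a) := by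
  have h1 : Computable fun x : α × (ℕ × ℕ) => exB (q x.1) x.2.1 :=
    computable_exB (α := α × (ℕ × ℕ)) (q := fun x i => q x.1 i) (f := fun x => x.2.1)
      (hq.comp (g := fun p : (α × (ℕ × ℕ)) × ℕ => (p.1.1, p.2)) (by fun_prop)) (by fun_prop)
  have h2 : Computable fun x : α × (ℕ × ℕ) => q x.1 x.2.1 :=
    hq.comp (g := fun x : α × (ℕ × ℕ) => (x.1, x.2.1)) (by fun_prop)
  have h := Computable.nat_rec (f := f) (g := fun _ : α => (0 : ℕ))
    (h := fun (a : α) (y : ℕ × ℕ) => bif exB (q a) y.1 then y.2 else bif q a y.1 then y.1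
      else y.1 + 1) hf (Computable.const 0)
    (show Computable fun x : α × (ℕ × ℕ) => bif exB (q x.1) x.2.1 then x.2.2 else
      bif q x.1 x.2.1 then x.2.1 else x.2.1 + 1 by
      exact ccond h1 (by fun_prop) (ccond h2 (by fun_prop) (by fun_prop)))
  refine h.of_eq fun a => ?_
  generalize f a = n
  induction n with
  | zero => rfl
  | succ n ih => simp only [lst]; rw [← ih]

theorem c_mem {f : α → β} {l : α → List β} [inst : ∀ a, Decidable (f a ∈ l a)]
    (hf : Computable f) (hl : Computable l) : Computable fun a => decide (f a ∈ l a) :=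
  cdecide (cp_mem hf hl)

theorem c_deq {f g : α → ℕ} (hf : Computable f) (hg : Computable g) :
    Computable fun a => decide (f a = g a) := cdecide (cp_eq hf hg)

theorem c_dlt {f g : α → ℕ} (hf : Computable f) (hg : Computable g) :
    Computable fun a => decide (f a < g a) := cdecide (cp_lt hf hg)

end comb

variable {W : ℕ → ℕ → Bool} {X : Set ℕ}

/-- It still looks as if `a` witnesses `h ∈ S_e` at stage `v` (with enumeration
stage `s`). -/
def al (W : ℕ → ℕ → Bool) (e v s h a : ℕ) : Bool :=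
  allB (fun z => !(decide (z.unpair.1 = e) && decide (z.unpair.2.unpair.1 = h) &&
    decide (z.unpair.2.unpair.2.unpair.1 = a)) || W s z) (v + 1)

theorem al_iff {e v s h a : ℕ} : al W e v s h a = true ↔
    ∀ b, Nat.pair e (Nat.pair h (Nat.pair a b)) ≤ v →
      W s (Nat.pair e (Nat.pair h (Nat.pair a b))) = true := by
  unfold al
  rw [allB_iff]
  constructor
  · intro h1 b hb
    have := h1 _ (Nat.lt_succ_of_le hb)
    simpa using this
  · intro h1 z hz
    by_cases h2 : z.unpair.1 = e ∧ z.unpair.2.unpair.1 = h ∧ z.unpair.2.unpair.2.unpair.1 = a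
    · obtain ⟨rfl, rfl, rfl⟩ := h2
      have h3 := h1 z.unpair.2.unpair.2.unpair.2
      rw [Nat.pair_unpair, Nat.pair_unpair, Nat.pair_unpair] at h3
      rw [h3 (by omega)]
      simp
    · simp only [Bool.or_eq_true, Bool.not_eq_true', Bool.and_eq_false_iff,
        decide_eq_false_iff_not]
      left
      by_contra hc
      push Not at hc
      exact h2 ⟨hc.1.1, hc.1.2, hc.2⟩

/-- Components of a code of two pairs. -/
def ph (c : ℕ) : ℕ := c.unpair.1.unpair.1
/-- Components of a code of two pairs. -/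
def pa (c : ℕ) : ℕ := c.unpair.1.unpair.2
/-- Components of a code of two pairs. -/
def pk (c : ℕ) : ℕ := c.unpair.2.unpair.1
/-- Components of a code of two pairs. -/
def pb (c : ℕ) : ℕ := c.unpair.2.unpair.2

/-- The test for the candidate `c`. -/
def tst (W : ℕ → ℕ → Bool) (e v s : ℕ) (T : List ℕ) (c : ℕ) : Bool :=
  al W e v s (ph c) (pa c) && (al W e v s (pk c) (pb c) && (decide (0 < ph c) &&
    (decide (0 < pk c) && (decide (mu (ph c) < la (pk c)) && (decide (mu (pk c) < v) &&
      !(decide (la (ph c) ∈ T)))))))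

theorem tst_iff {e v s : ℕ} {T : List ℕ} {c : ℕ} : tst W e v s T c = true ↔
    al W e v s (ph c) (pa c) = true ∧ al W e v s (pk c) (pb c) = true ∧ 0 < ph c ∧ 0 < pk c ∧
      mu (ph c) < la (pk c) ∧ mu (pk c) < v ∧ la (ph c) ∉ T := by
  unfold tst
  simp only [Bool.and_eq_true, decide_eq_true_eq, Bool.not_eq_true', decide_eq_false_iff_not]

/-- The lowest positions taken at stage `v` by the requirements `< e`. -/
def TT (W : ℕ → ℕ → Bool) (v s : ℕ) : ℕ → List ℕ
  | 0 => []
  | e + 1 => bif decide (lst (tst W e v s (TT W v s e)) v < v) then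
      la (ph (lst (tst W e v s (TT W v s e)) v)) :: TT W v s e else TT W v s e

/-- The candidate used by requirement `e` at stage `v`. -/
def pick (W : ℕ → ℕ → Bool) (v s e : ℕ) : ℕ := lst (tst W e v s (TT W v s e)) v

theorem TT_succ {v s e : ℕ} : TT W v s (e + 1) = bif decide (pick W v s e < v) then
    la (ph (pick W v s e)) :: TT W v s e else TT W v s e := rfl

theorem TT_length {v s e : ℕ} : (TT W v s e).length ≤ e := by
  induction e with
  | zero => simp [TT]
  | succ e ih =>
    rw [TT_succ]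
    cases decide (pick W v s e < v)
    · simp only [cond_false]; omega
    · simp only [cond_true, List.length_cons]; omega

theorem TT_mono {v s e x : ℕ} (h : x ∈ TT W v s e) : x ∈ TT W v s (e + 1) := by
  rw [TT_succ]
  cases decide (pick W v s e < v)
  · exact h
  · exact List.mem_cons_of_mem _ h

theorem TT_mono' {v s e e' x : ℕ} (hee : e ≤ e') (h : x ∈ TT W v s e) : x ∈ TT W v s e' := by
  induction hee with
  | refl => exact h
  | step _ ih => exact TT_mono ih

theorem mem_TT_succ {v s e : ℕ} (h : pick W v s e < v) :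
    la (ph (pick W v s e)) ∈ TT W v s (e + 1) := by
  rw [TT_succ, decide_eq_true h]
  simp

theorem pick_tst {v s e : ℕ} (h : pick W v s e < v) :
    tst W e v s (TT W v s e) (pick W v s e) = true := lst_of_lt h

theorem pick_ne {v s e e' : ℕ} (hlt : e < e') (h : pick W v s e < v) (h' : pick W v s e' < v) :
    la (ph (pick W v s e)) ≠ la (ph (pick W v s e')) := by
  intro hc
  have h1 := TT_mono' (show e + 1 ≤ e' from hlt) (mem_TT_succ h)
  have h2 := (tst_iff.1 (pick_tst h')).2.2.2.2.2.2
  rw [hc] at h1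
  exact h2 h1

theorem pick_inj {v s e e' : ℕ} (h : pick W v s e < v) (h' : pick W v s e' < v)
    (he : la (ph (pick W v s e)) = la (ph (pick W v s e'))) : e = e' := by
  rcases Nat.lt_trichotomy e e' with h1 | h1 | h1
  · exact absurd he (pick_ne h1 h h')
  · exact h1
  · exact absurd he.symm (pick_ne h1 h' h)

/-- The sum which has to be contradicted, computed from the history `G`. -/
def rs (G : List (ℕ × ℕ × ℕ)) (h k : ℕ) : Bool :=
  xor (decide ((la k, la h, mu h) ∈ G)) (gs (fun a b => decide ((b, la h, a) ∈ G)) (L k))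

/-- The history: the list of all `(v, x, u)` with `v < n` at which the value is `1`. -/
def HH (W : ℕ → ℕ → Bool) (s : ℕ) : ℕ → List (ℕ × ℕ × ℕ)
  | 0 => []
  | n + 1 => (List.range n).foldl (fun acc e =>
      bif decide (pick W n s e < n) && !(rs (HH W s n) (ph (pick W n s e)) (pk (pick W n s e)))
      then (n, la (ph (pick W n s e)), mu (pk (pick W n s e))) :: acc else acc) (HH W s n)

theorem mem_foldl {β : Type*} (l : List ℕ) (q : ℕ → Bool) (t : ℕ → β) (G : List β) (y : β) :
    y ∈ l.foldl (fun acc e => bif q e then t e :: acc else acc) G ↔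
      y ∈ G ∨ ∃ e ∈ l, q e = true ∧ y = t e := by
  induction l generalizing G with
  | nil => simp
  | cons a l ih =>
    rw [List.foldl_cons, ih]
    cases hq : q a
    · simp only [cond_false, List.mem_cons, exists_eq_or_imp, hq, Bool.false_eq_true, false_and,
        false_or]
    · simp only [cond_true, List.mem_cons, exists_eq_or_imp, hq, true_and]
      tauto

theorem mem_HH_succ {s n : ℕ} {y : ℕ × ℕ × ℕ} : y ∈ HH W s (n + 1) ↔ y ∈ HH W s n ∨
    ∃ e < n, pick W n s e < n ∧ rs (HH W s n) (ph (pick W n s e)) (pk (pick W n s e)) = false ∧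
      y = (n, la (ph (pick W n s e)), mu (pk (pick W n s e))) := by
  rw [HH, mem_foldl]
  simp only [List.mem_range, Bool.and_eq_true, decide_eq_true_eq, Bool.not_eq_true', and_assoc]

theorem HH_lt {s n v x u : ℕ} (h : (v, x, u) ∈ HH W s n) : v < n := by
  induction n with
  | zero => simp [HH] at h
  | succ n ih =>
    rcases mem_HH_succ.1 h with h1 | ⟨e, _, _, _, h1⟩
    · exact Nat.lt_succ_of_lt (ih h1)
    · rw [(Prod.mk.inj h1).1]; exact Nat.lt_succ_self n

theorem HH_stable {s n m v x u : ℕ} (hn : v < n) (hm : n ≤ m) :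
    (v, x, u) ∈ HH W s m ↔ (v, x, u) ∈ HH W s n := by
  induction hm with
  | refl => rfl
  | @step m hm ih =>
    rw [mem_HH_succ, ih]
    constructor
    · rintro (h | ⟨e, _, _, _, h1⟩)
      · exact h
      · have := (Prod.mk.inj h1).1
        have h2 : n ≤ m := hm
        omega
    · exact Or.inl

/-- The function `g`. -/
def g3 (W : ℕ → ℕ → Bool) (s x u v : ℕ) : Bool := decide ((v, x, u) ∈ HH W s (v + 1))

theorem g3_eq {s x u v n : ℕ} (h : v < n) : g3 W s x u v = decide ((v, x, u) ∈ HH W s n) := by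
  unfold g3
  rw [decide_eq_decide]
  exact (HH_stable (Nat.lt_succ_self v) h).symm

theorem rs_eq {s h k n : ℕ} (hk : 0 < k) (h2 : mu k < n) :
    rs (HH W s n) h k = xor (g3 W s (la h) (mu h) (la k)) (gs (g3 W s (la h)) (L k)) := by
  unfold rs
  have := la_le_mu hk
  rw [g3_eq (n := n) (by omega)]
  congr 1
  refine gs_congr (L_sorted k).pairwise fun a ha b hb _ => ?_
  have := le_mu hb
  exact (g3_eq (by omega)).symm

/-- The values at stage `v` of the pair picked by `e`. -/
theorem g3_pick {v s e : ℕ} (he : e < v) (h : pick W v s e < v) :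
    g3 W s (la (ph (pick W v s e))) (mu (ph (pick W v s e))) v = false ∧
    g3 W s (la (ph (pick W v s e))) (mu (pk (pick W v s e))) v =
      !(xor (g3 W s (la (ph (pick W v s e))) (mu (ph (pick W v s e))) (la (pk (pick W v s e))))
        (gs (g3 W s (la (ph (pick W v s e)))) (L (pk (pick W v s e))))) := by
  have ht := tst_iff.1 (pick_tst h)
  have hrs := rs_eq (W := W) (s := s) (h := ph (pick W v s e)) ht.2.2.2.1 ht.2.2.2.2.2.1
  constructor
  · unfold g3
    rw [decide_eq_false_iff_not, mem_HH_succ]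
    rintro (h1 | ⟨e', he', h2, h3, h4⟩)
    · exact lt_irrefl _ (HH_lt h1)
    · have h5 := (Prod.mk.inj (Prod.mk.inj h4).2)
      have h6 := pick_inj h h2 h5.1
      subst h6
      have h7 := h5.2
      have h8 := la_le_mu ht.2.2.2.1
      have := ht.2.2.2.2.1
      omega
  · rw [← hrs]
    unfold g3
    cases hr : rs (HH W s v) (ph (pick W v s e)) (pk (pick W v s e))
    · rw [Bool.not_false, decide_eq_true_iff, mem_HH_succ]
      exact Or.inr ⟨e, he, h, hr, rfl⟩
    · rw [Bool.not_true, decide_eq_false_iff_not, mem_HH_succ]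
      rintro (h1 | ⟨e', he', h2, h3, h4⟩)
      · exact lt_irrefl _ (HH_lt h1)
      · have h5 := (Prod.mk.inj (Prod.mk.inj h4).2)
        have h6 := pick_inj h h2 h5.1
        subst h6
        rw [hr] at h3; cases h3

/-- `a` witnesses `h ∈ S_e`. -/
def Tr (W : ℕ → ℕ → Bool) (e h a : ℕ) : Prop :=
  ∀ b, ∃ s, W s (Nat.pair e (Nat.pair h (Nat.pair a b))) = true

theorem exists_dead (e N : ℕ) : ∃ v0, ∀ c ≤ N, ∀ v s, v0 ≤ v →
    (al W e v s (ph c) (pa c) = true → Tr W e (ph c) (pa c)) ∧
    (al W e v s (pk c) (pb c) = true → Tr W e (pk c) (pb c)) := by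
  have key : ∀ h a, ∃ v0, ∀ v s, v0 ≤ v → al W e v s h a = true → Tr W e h a := by
    intro h a
    by_cases ht : Tr W e h a
    · exact ⟨0, fun _ _ _ _ => ht⟩
    · unfold Tr at ht
      push Not at ht
      obtain ⟨b, hb⟩ := ht
      refine ⟨Nat.pair e (Nat.pair h (Nat.pair a b)), fun v s hv hal => ?_⟩
      exact absurd (al_iff.1 hal b hv) (hb s)
  induction N with
  | zero =>
    obtain ⟨v1, h1⟩ := key (ph 0) (pa 0)
    obtain ⟨v2, h2⟩ := key (pk 0) (pb 0)
    refine ⟨max v1 v2, fun c hc v s hv => ?_⟩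
    rw [Nat.le_zero.1 hc]
    exact ⟨h1 v s (by omega), h2 v s (by omega)⟩
  | succ N ih =>
    obtain ⟨v0, h0⟩ := ih
    obtain ⟨v1, h1⟩ := key (ph (N + 1)) (pa (N + 1))
    obtain ⟨v2, h2⟩ := key (pk (N + 1)) (pb (N + 1))
    refine ⟨max v0 (max v1 v2), fun c hc v s hv => ?_⟩
    rcases Nat.lt_or_ge c (N + 1) with h3 | h3
    · exact h0 c (by omega) v s (by omega)
    · have : c = N + 1 := by omega
      rw [this]
      exact ⟨h1 v s (by omega), h2 v s (by omega)⟩

theorem exists_chain (hf : Far X) : ∃ f : ℕ → ℕ, (∀ i, f i ∈ X) ∧ ∀ i, Sep (f i) (f (i + 1)) := by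
  choose F hF1 hF2 using hf
  refine ⟨fun n => Nat.rec (F 0) (fun _ r => F (mu r)) n, fun i => ?_, fun i => hF2 _⟩
  cases i with
  | zero => exact hF1 _
  | succ i => exact hF1 _

theorem chain_strict (hp : Ps X) {f : ℕ → ℕ} (h1 : ∀ i, f i ∈ X)
    (h2 : ∀ i, Sep (f i) (f (i + 1))) : StrictMono fun i => la (f i) :=
  strictMono_nat_of_lt_succ fun i => sep_lt (hp _ (h1 i)) (h2 i)

theorem no_sigma3 (hp : Ps X) (hf : Far X) (hM : ModOK W X) (he3 : Eq3 (C (g3 W)) X) (e : ℕ)
    (hX : ∀ n, n ∈ X ↔ ∃ a, Tr W e n a) : False := by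
  obtain ⟨f, hf1, hf2⟩ := exists_chain hf
  have hsm := chain_strict hp hf1 hf2
  choose w hw using fun i => (hX (f i)).1 (hf1 i)
  let cc : ℕ → ℕ := fun i => Nat.pair (Nat.pair (f i) (w i)) (Nat.pair (f (i + 1)) (w (i + 1)))
  -- a bound for the codes
  obtain ⟨N, hN⟩ : ∃ N, ∀ i ≤ e, cc i ≤ N ∧ mu (f (i + 1)) ≤ N := by
    refine ⟨(Finset.range (e + 1)).sup (fun i => max (cc i) (mu (f (i + 1)))), fun i hi => ?_⟩
    have h5 : i ∈ Finset.range (e + 1) := Finset.mem_range.2 (Nat.lt_succ_of_le hi)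
    have h6 := Finset.le_sup (f := fun i => max (cc i) (mu (f (i + 1)))) h5
    exact ⟨le_trans (le_max_left _ _) h6, le_trans (le_max_right _ _) h6⟩
  obtain ⟨v0, hv0⟩ := exists_dead (W := W) e N
  obtain ⟨l, hl, hll⟩ := hf (max (max v0 N) e)
  -- the stage
  have hgood : ∀ z ≤ la l, ∀ s, W s z = true → W (mu l) z = true := hM l hl
  -- some candidate of the chain is available
  obtain ⟨i, hi, hit⟩ : ∃ i ≤ e, la (f i) ∉ TT W (la l) (mu l) e := by
    by_contra hc
    push Not at hc
    have h1 : (Finset.range (e + 1)).image (fun i => la (f i)) ⊆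
        (TT W (la l) (mu l) e).toFinset := by
      intro y hy
      obtain ⟨i, hi, rfl⟩ := Finset.mem_image.1 hy
      rw [List.mem_toFinset]
      exact hc i (by have := Finset.mem_range.1 hi; omega)
    have h2 := Finset.card_le_card h1
    rw [Finset.card_image_of_injective _ hsm.injective, Finset.card_range] at h2
    have h3 := List.toFinset_card_le (TT W (la l) (mu l) e)
    have h4 := TT_length (W := W) (v := la l) (s := mu l) (e := e)
    omega
  have hal : ∀ j, al W e (la l) (mu l) (f j) (w j) = true := by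
    intro j
    rw [al_iff]
    intro b hb
    obtain ⟨s, hs⟩ := hw j b
    exact hgood _ hb s hs
  have htst : tst W e (la l) (mu l) (TT W (la l) (mu l) e) (cc i) = true := by
    rw [tst_iff]
    simp only [ph, pa, pk, pb, cc, Nat.unpair_pair]
    refine ⟨hal _, hal _, hp _ (hf1 _), hp _ (hf1 _), hf2 i, ?_, hit⟩
    have := (hN i hi).2
    omega
  obtain ⟨h1, h2, h3⟩ := lst_lt_of (q := tst W e (la l) (mu l) (TT W (la l) (mu l) e))
    (n := la l) (i := cc i) (by have := (hN i hi).1; omega) htst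
  change pick W (la l) (mu l) e ≤ cc i at h1
  change pick W (la l) (mu l) e < la l at h2
  have ht := tst_iff.1 (pick_tst h2)
  have hcN : pick W (la l) (mu l) e ≤ N := le_trans h1 (hN i hi).1
  obtain ⟨d1, d2⟩ := hv0 _ hcN (la l) (mu l) (by omega)
  have hhX : ph (pick W (la l) (mu l) e) ∈ X := (hX _).2 ⟨_, d1 ht.1⟩
  have hkX : pk (pick W (la l) (mu l) e) ∈ X := (hX _).2 ⟨_, d2 ht.2.1⟩
  obtain ⟨v1, v2⟩ := g3_pick (W := W) (s := mu l) (v := la l) (e := e) (by omega) h2
  generalize pick W (la l) (mu l) e = c at *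
  have hr := rel (hp _ hhX) (hp _ hkX) (hp l hl) ht.2.2.2.2.1 ht.2.2.2.2.2.1
    (he3 _ hhX _ hkX l hl ht.2.2.2.2.1 ht.2.2.2.2.2.1)
  rw [v1, v2] at hr
  revert hr
  generalize xor (g3 W (mu l) (la (ph c)) (mu (ph c)) (la (pk c)))
        (gs (g3 W (mu l) (la (ph c))) (L (pk c))) = a
  revert a
  decide

section comp

variable {α : Type*} [Primcodable α]

end comp

end Pool.Agent.H645R2.HT
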