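import Pool.Agent.H645R2.HT.PartB

namespace Pool.Agent.H645R2.HT

open Pool.Agent.Helper446 Pool.Agent.Helper446.RE Pool.Agent.Helper446.Oracle

variable {W : ℕ → ℕ → Bool} {X : Set ℕ}

section comp

variable {α : Type*} [Primcodable α]

theorem c_al (hW : Computable fun q : ℕ × ℕ => W q.1 q.2) {f1 f2 f3 f4 f5 : α → ℕ}
    (h1 : Computable f1) (h2 : Computable f2) (h3 : Computable f3) (h4 : Computable f4)
    (h5 : Computable f5) : Computable fun a => al W (f1 a) (f2 a) (f3 a) (f4 a) (f5 a) := by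
  have hw := hW.comp (g := fun x : α × ℕ => (f3 x.1, x.2)) (by fun_prop)
  have e1 : Computable fun x : α × ℕ => decide (x.2.unpair.1 = f1 x.1) :=
    c_deq (f := fun x : α × ℕ => x.2.unpair.1) (g := fun x => f1 x.1) (by fun_prop) (by fun_prop)
  have e2 : Computable fun x : α × ℕ => decide (x.2.unpair.2.unpair.1 = f4 x.1) :=
    c_deq (f := fun x : α × ℕ => x.2.unpair.2.unpair.1) (g := fun x => f4 x.1) (by fun_prop)
      (by fun_prop)
  have e3 : Computable fun x : α × ℕ => decide (x.2.unpair.2.unpair.2.unpair.1 = f5 x.1) :=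
    c_deq (f := fun x : α × ℕ => x.2.unpair.2.unpair.2.unpair.1) (g := fun x => f5 x.1)
      (by fun_prop) (by fun_prop)
  have e4 : Computable fun x : α × ℕ => !(decide (x.2.unpair.1 = f1 x.1) &&
    decide (x.2.unpair.2.unpair.1 = f4 x.1) &&
    decide (x.2.unpair.2.unpair.2.unpair.1 = f5 x.1)) || W (f3 x.1) x.2 :=
    cor (cnot (cand (cand e1 e2) e3)) hw
  have e5 : Computable fun a => f2 a + 1 := by fun_prop
  exact computable_allB (q := fun (a : α) z => !(decide (z.unpair.1 = f1 a) &&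
    decide (z.unpair.2.unpair.1 = f4 a) && decide (z.unpair.2.unpair.2.unpair.1 = f5 a)) ||
    W (f3 a) z) (f := fun a => f2 a + 1) e4 e5

@[fun_prop] theorem c_ph {f : α → ℕ} (hf : Computable f) : Computable fun a => ph (f a) := by
  unfold ph; fun_prop
@[fun_prop] theorem c_pa {f : α → ℕ} (hf : Computable f) : Computable fun a => pa (f a) := by
  unfold pa; fun_prop
@[fun_prop] theorem c_pk {f : α → ℕ} (hf : Computable f) : Computable fun a => pk (f a) := by
  unfold pk; fun_prop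
@[fun_prop] theorem c_pb {f : α → ℕ} (hf : Computable f) : Computable fun a => pb (f a) := by
  unfold pb; fun_prop

theorem c_tst (hW : Computable fun q : ℕ × ℕ => W q.1 q.2) {f1 f2 f3 f5 : α → ℕ}
    {f4 : α → List ℕ}
    (h1 : Computable f1) (h2 : Computable f2) (h3 : Computable f3) (h4 : Computable f4)
    (h5 : Computable f5) : Computable fun a => tst W (f1 a) (f2 a) (f3 a) (f4 a) (f5 a) := by
  unfold tst
  have a1 : Computable fun a => al W (f1 a) (f2 a) (f3 a) (ph (f5 a)) (pa (f5 a)) :=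
    c_al hW h1 h2 h3 (by fun_prop) (by fun_prop)
  have a2 : Computable fun a => al W (f1 a) (f2 a) (f3 a) (pk (f5 a)) (pb (f5 a)) :=
    c_al hW h1 h2 h3 (by fun_prop) (by fun_prop)
  have a3 : Computable fun a => decide (la (ph (f5 a)) ∈ f4 a) :=
    c_mem (f := fun a => la (ph (f5 a))) (l := f4) (by fun_prop) h4
  have a4 : Computable fun a => decide (0 < ph (f5 a)) :=
    c_dlt (f := fun _ => 0) (g := fun a => ph (f5 a)) (by fun_prop) (by fun_prop)
  have a5 : Computable fun a => decide (0 < pk (f5 a)) :=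
    c_dlt (f := fun _ => 0) (g := fun a => pk (f5 a)) (by fun_prop) (by fun_prop)
  have a6 : Computable fun a => decide (mu (ph (f5 a)) < la (pk (f5 a))) :=
    c_dlt (f := fun a => mu (ph (f5 a))) (g := fun a => la (pk (f5 a))) (by fun_prop)
      (by fun_prop)
  have a7 : Computable fun a => decide (mu (pk (f5 a)) < f2 a) :=
    c_dlt (f := fun a => mu (pk (f5 a))) (g := f2) (by fun_prop) (by fun_prop)
  exact cand a1 (cand a2 (cand a4 (cand a5 (cand a6 (cand a7 (cnot a3))))))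

theorem c_TT (hW : Computable fun q : ℕ × ℕ => W q.1 q.2) {f1 f2 f3 : α → ℕ}
    (h1 : Computable f1) (h2 : Computable f2) (h3 : Computable f3) :
    Computable fun a => TT W (f1 a) (f2 a) (f3 a) := by
  have hl : Computable fun x : α × (ℕ × List ℕ) =>
      lst (tst W x.2.1 (f1 x.1) (f2 x.1) x.2.2) (f1 x.1) := by
    refine c_lst (q := fun (x : α × (ℕ × List ℕ)) c => tst W x.2.1 (f1 x.1) (f2 x.1) x.2.2 c) ?_
      (by fun_prop)
    exact c_tst hW (by fun_prop) (by fun_prop) (by fun_prop) (by fun_prop) (by fun_prop)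
  have h := Computable.nat_rec (f := f3) (g := fun _ : α => ([] : List ℕ))
    (h := fun (a : α) (y : ℕ × List ℕ) =>
      bif decide (lst (tst W y.1 (f1 a) (f2 a) y.2) (f1 a) < f1 a) then
        la (ph (lst (tst W y.1 (f1 a) (f2 a) y.2) (f1 a))) :: y.2 else y.2)
    h3 (Computable.const []) (by
      unfold Computable₂
      have b1 : Computable fun x : α × (ℕ × List ℕ) =>
          decide (lst (tst W x.2.1 (f1 x.1) (f2 x.1) x.2.2) (f1 x.1) < f1 x.1) :=
        c_dlt (f := fun x : α × (ℕ × List ℕ) =>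
          lst (tst W x.2.1 (f1 x.1) (f2 x.1) x.2.2) (f1 x.1)) (g := fun x => f1 x.1) hl
          (by fun_prop)
      exact ccond b1 (ccons (c_la (by unfold ph; fun_prop)) (by fun_prop)) (by fun_prop))
  refine h.of_eq fun a => ?_
  generalize f3 a = n
  induction n with
  | zero => rfl
  | succ n ih => simp only [TT]; rw [← ih]

theorem c_pick (hW : Computable fun q : ℕ × ℕ => W q.1 q.2) {f1 f2 f3 : α → ℕ}
    (h1 : Computable f1) (h2 : Computable f2) (h3 : Computable f3) :
    Computable fun a => pick W (f1 a) (f2 a) (f3 a) := by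
  unfold pick
  refine c_lst (q := fun (a : α) c => tst W (f3 a) (f1 a) (f2 a) (TT W (f1 a) (f2 a) (f3 a)) c)
    ?_ h1
  have hT := c_TT hW (α := α × ℕ) (f1 := fun x => f1 x.1) (f2 := fun x => f2 x.1)
    (f3 := fun x => f3 x.1) (by fun_prop) (by fun_prop) (by fun_prop)
  exact c_tst hW (by fun_prop) (by fun_prop) (by fun_prop) hT (by fun_prop)

theorem c_rs {f1 : α → List (ℕ × ℕ × ℕ)} {f2 f3 : α → ℕ}
    (h1 : Computable f1) (h2 : Computable f2) (h3 : Computable f3) :
    Computable fun a => rs (f1 a) (f2 a) (f3 a) := by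
  unfold rs
  refine c_xor (c_mem (f := fun a => (la (f3 a), la (f2 a), mu (f2 a))) (l := f1)
    (by fun_prop) h1) ?_
  refine c_gs (γ := fun a u b => decide ((b, la (f2 a), u) ∈ f1 a)) ?_ (by fun_prop)
  exact c_mem (f := fun p : α × ℕ × ℕ => (p.2.2, la (f2 p.1), p.2.1)) (l := fun p => f1 p.1)
    (by fun_prop) (by fun_prop)

theorem c_HH (hW : Computable fun q : ℕ × ℕ => W q.1 q.2) {f1 f2 : α → ℕ}
    (h1 : Computable f1) (h2 : Computable f2) :
    Computable fun a => HH W (f1 a) (f2 a) := by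
  have h := Computable.nat_rec (f := f2) (g := fun _ : α => ([] : List (ℕ × ℕ × ℕ)))
    (h := fun (a : α) (y : ℕ × List (ℕ × ℕ × ℕ)) =>
      (List.range y.1).foldl (fun acc e =>
      bif decide (pick W y.1 (f1 a) e < y.1) &&
        !(rs y.2 (ph (pick W y.1 (f1 a) e)) (pk (pick W y.1 (f1 a) e)))
      then (y.1, la (ph (pick W y.1 (f1 a) e)), mu (pk (pick W y.1 (f1 a) e))) :: acc else acc)
        y.2)
    h2 (Computable.const []) ?_
  · refine h.of_eq fun a => ?_
    generalize f2 a = n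
    induction n with
    | zero => rfl
    | succ n ih => simp only [HH]; rw [← ih]
  · unfold Computable₂
    refine RE.list_foldl (f := fun x : α × (ℕ × List (ℕ × ℕ × ℕ)) => List.range x.2.1)
      (g := fun x : α × (ℕ × List (ℕ × ℕ × ℕ)) => x.2.2)
      (h := fun (x : α × (ℕ × List (ℕ × ℕ × ℕ))) (p : List (ℕ × ℕ × ℕ) × ℕ) =>
      bif decide (pick W x.2.1 (f1 x.1) p.2 < x.2.1) &&
        !(rs x.2.2 (ph (pick W x.2.1 (f1 x.1) p.2)) (pk (pick W x.2.1 (f1 x.1) p.2)))
      then (x.2.1, la (ph (pick W x.2.1 (f1 x.1) p.2)), mu (pk (pick W x.2.1 (f1 x.1) p.2))) ::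
        p.1 else p.1) (Primrec.list_range.to_comp.comp (by fun_prop)) (by fun_prop) ?_
    unfold Computable₂
    have hpk : Computable fun x : (α × (ℕ × List (ℕ × ℕ × ℕ))) × (List (ℕ × ℕ × ℕ) × ℕ) =>
        pick W x.1.2.1 (f1 x.1.1) x.2.2 :=
      c_pick hW (by fun_prop) (by fun_prop) (by fun_prop)
    have hrs : Computable fun x : (α × (ℕ × List (ℕ × ℕ × ℕ))) × (List (ℕ × ℕ × ℕ) × ℕ) =>
        rs x.1.2.2 (ph (pick W x.1.2.1 (f1 x.1.1) x.2.2)) (pk (pick W x.1.2.1 (f1 x.1.1) x.2.2)) :=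
      c_rs (by fun_prop) (by fun_prop) (by fun_prop)
    have hlt : Computable fun x : (α × (ℕ × List (ℕ × ℕ × ℕ))) × (List (ℕ × ℕ × ℕ) × ℕ) =>
        decide (pick W x.1.2.1 (f1 x.1.1) x.2.2 < x.1.2.1) :=
      c_dlt (f := fun x : (α × (ℕ × List (ℕ × ℕ × ℕ))) × (List (ℕ × ℕ × ℕ) × ℕ) =>
        pick W x.1.2.1 (f1 x.1.1) x.2.2) (g := fun x => x.1.2.1) hpk (by fun_prop)
    exact ccond (cand hlt (cnot hrs)) (ccons (cpair (by fun_prop) (cpair (c_la (c_ph hpk))
      (c_mu (c_pk hpk)))) (by fun_prop)) (by fun_prop)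

theorem c_g3 (hW : Computable fun q : ℕ × ℕ => W q.1 q.2) :
    Computable fun p : (ℕ × ℕ) × ℕ × ℕ => g3 W p.1.1 p.1.2 p.2.1 p.2.2 := by
  have h1 : Computable fun p : (ℕ × ℕ) × ℕ × ℕ => HH W p.1.1 (p.2.2 + 1) :=
    c_HH hW (f1 := fun p : (ℕ × ℕ) × ℕ × ℕ => p.1.1) (f2 := fun p => p.2.2 + 1)
      (by fun_prop) (by fun_prop)
  have h2 : Computable fun p : (ℕ × ℕ) × ℕ × ℕ => (p.2.2, p.1.2, p.2.1) := by fun_prop
  exact (c_mem h2 h1).of_eq fun p => rfl

end comp

end Pool.Agent.H645R2.HT
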