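import Pool.Agent.H645R2.HT.PartA
import Pool.Agent.H645R2.HT.PartBc

/-! The universal enumeration, and passing from a monochromatic set to `Ps`, `Far`, `Eq2`, `Eq3`. -/

namespace Pool.Agent.H645R2.HT

open Pool.Agent.Helper446 Pool.Agent.Helper446.RE Pool.Agent.Helper446.Oracle

/-- The universal computably enumerable set, with stages. -/
def W0 (s z : ℕ) : Bool := wst ℕ z.unpair.1 s z.unpair.2

theorem mon_W0 : Mon W0 := fun _ _ _ h h' => wst_mono h h'

theorem c_W0 : Computable fun q : ℕ × ℕ => W0 q.1 q.2 :=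
  wst_comp.comp (f := fun p : (ℕ × ℕ) × ℕ => wst ℕ p.1.1 p.1.2 p.2)
    (g := fun q : ℕ × ℕ => ((q.2.unpair.1, q.1), q.2.unpair.2)) (by fun_prop)

theorem univ_W0 {p : ℕ → Prop} (hp : REPred p) :
    ∃ e, ∀ x, p x ↔ ∃ s, W0 s (Nat.pair e x) = true := by
  obtain ⟨e, he⟩ := wst_univ hp
  refine ⟨e, fun x => ?_⟩
  rw [he]
  simp [W0]

/-- Solutions of a colouring `c` which refines the colour of the lowest digit. -/
theorem far_of {X : Set ℕ} (hinf : X.Infinite) (hp : Ps X)
    (h2 : ∀ x ∈ X, ∀ y ∈ X, x ≠ y → (dg (la (x + y)) (x + y) = 1 ↔ dg (la x) x = 1))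
    (h1 : ∀ x ∈ X, ∀ y ∈ X, (dg (la x) x = 1 ↔ dg (la y) y = 1)) : Far X := by
  have hinj : Set.InjOn la X := by
    intro x hx y hy hxy
    by_contra hne
    have key : ∀ n, 0 < n → dg (la n) n = 1 ∨ dg (la n) n = 2 := by
      intro n hn
      have h3 : dg (la n) n ≠ 0 := mem_L.1 (la_mem hn)
      have h4 : dg (la n) n < 3 := Nat.mod_lt _ (by norm_num)
      omega
    have hd : dg (la x) x = dg (la y) y := by
      have := h1 x hx y hy
      have a1 := key x (hp x hx)
      have a2 := key y (hp y hy)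
      omega
    have h5 := la_add_same (hp x hx) (hp y hy) hxy hd
    have h6 := h2 x hx y hy hne
    have a1 := key x (hp x hx)
    have a3 := key (x + y) (by have := hp x hx; omega)
    omega
  have hii := hinf.image hinj
  intro N
  obtain ⟨m, hm, hNm⟩ := hii.exists_gt N
  obtain ⟨x, hx, rfl⟩ := hm
  exact ⟨x, hx, hNm⟩

/-- `c` is constant on the sums of at most `3` distinct elements of `X`. -/
def Const3 {κ : Type} (c : ℕ → κ) (X : Set ℕ) : Prop :=
  ∃ i, ∀ F : Finset ℕ, (F : Set ℕ) ⊆ X → F.Nonempty → F.card ≤ 3 → c (∑ n ∈ F, n) = i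

theorem Const3.one {κ : Type} {c : ℕ → κ} {X : Set ℕ} (h : Const3 c X) :
    ∃ i, (∀ x ∈ X, c x = i) ∧ (∀ x ∈ X, ∀ y ∈ X, x ≠ y → c (x + y) = i) ∧
      (∀ x ∈ X, ∀ y ∈ X, ∀ z ∈ X, x ≠ y → x ≠ z → y ≠ z → c (x + (y + z)) = i) := by
  obtain ⟨i, hi⟩ := h
  refine ⟨i, fun x hx => ?_, fun x hx y hy hxy => ?_, fun x hx y hy z hz hxy hxz hyz => ?_⟩
  · have := hi {x} (by simpa using hx) (by simp) (by simp)
    simpa using this
  · have := hi {x, y} (by
      intro w hw
      simp only [Finset.coe_insert, Finset.coe_singleton, Set.mem_insert_iff,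
        Set.mem_singleton_iff] at hw
      rcases hw with rfl | rfl <;> assumption) (by simp) (by
      rw [Finset.card_pair hxy]; norm_num)
    rw [Finset.sum_pair hxy] at this
    exact this
  · have h1 : x ∉ ({y, z} : Finset ℕ) := by simp [hxy, hxz]
    have := hi {x, y, z} (by
      intro w hw
      simp only [Finset.coe_insert, Finset.coe_singleton, Set.mem_insert_iff,
        Set.mem_singleton_iff] at hw
      rcases hw with rfl | rfl | rfl <;> assumption) (by simp) (by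
      rw [Finset.card_insert_of_notMem h1, Finset.card_pair hyz])
    rw [Finset.sum_insert h1, Finset.sum_pair hyz] at this
    exact this

theorem Const3.map {κ μ : Type} {c : ℕ → κ} {X : Set ℕ} (h : Const3 c X) (f : κ → μ) :
    Const3 (fun n => f (c n)) X := by
  obtain ⟨i, hi⟩ := h
  exact ⟨f i, fun F h1 h2 h3 => congrArg f (hi F h1 h2 h3)⟩

theorem Const3.eq2 {c : ℕ → Bool} {X : Set ℕ} (hp : Ps X) (h : Const3 c X) : Eq2 c X := by
  obtain ⟨i, h1, h2, _⟩ := h.one
  intro x hx y hy hxy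
  rw [h1 x hx, h2 x hx y hy (sep_ne (hp x hx) hxy)]

theorem Const3.eq3 {c : ℕ → Bool} {X : Set ℕ} (hp : Ps X) (h : Const3 c X) : Eq3 c X := by
  obtain ⟨i, _, h2, h3⟩ := h.one
  intro x hx y hy z hz hxy hyz
  have hxz := sep_trans (hp y hy) hxy hyz
  rw [h2 x hx z hz (sep_ne (hp x hx) hxz), h3 x hx y hy z hz (sep_ne (hp x hx) hxy)
    (sep_ne (hp x hx) hxz) (sep_ne (hp y hy) hyz)]

/-- The colour of the lowest digit. -/
def b0 (n : ℕ) : Bool := decide (dg (la n) n = 1)

theorem c_b0 : Computable b0 := by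
  unfold b0
  exact c_deq (f := fun n => dg (la n) n) (g := fun _ => 1) (by fun_prop) (by fun_prop)

theorem Const3.far {X : Set ℕ} (hinf : X.Infinite) (hp : Ps X) (h : Const3 b0 X) : Far X := by
  obtain ⟨i, h1, h2, _⟩ := h.one
  refine far_of hinf hp (fun x hx y hy hxy => ?_) (fun x hx y hy => ?_)
  · have e1 := h2 x hx y hy hxy
    have e2 := h1 x hx
    rw [← e1] at e2
    unfold b0 at e2
    rw [decide_eq_decide] at e2
    exact e2.symm
  · have e1 := h1 x hx
    have e2 := h1 y hy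
    rw [← e2] at e1
    unfold b0 at e1
    rw [decide_eq_decide] at e1
    exact e1

theorem ps_of {X : Set ℕ} (h : 0 ∉ X) : Ps X := fun x hx =>
  Nat.pos_of_ne_zero fun h0 => h (h0 ▸ hx)

/-- Packing three bits. -/
def pack3 (q : Bool × Bool × Bool) : Fin 8 :=
  (if q.1 then 1 else 0) + (if q.2.1 then 2 else 0) + (if q.2.2 then 4 else 0)

/-- Unpacking. -/
def unpack3 (i : Fin 8) : Bool × Bool × Bool :=
  (i.val % 2 = 1, i.val / 2 % 2 = 1, i.val / 4 % 2 = 1)

theorem unpack_pack3 : ∀ q, unpack3 (pack3 q) = q := by decide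

/-- The function `p` used to present every `Σ⁰₂` set. -/
def p0 (z : ℕ) : ℕ := Nat.pair z.unpair.1 z.unpair.2.unpair.1

theorem c_p0 : Computable p0 := by
  unfold p0
  fun_prop

/-- Every set `∃ a, ∀ b, R n a b` with `R` computable is reducible to `A W0 p0`. -/
theorem sigma2_univ {R : ℕ → ℕ → ℕ → Bool}
    (hR : Computable fun q : ℕ × ℕ × ℕ => R q.1 q.2.1 q.2.2) :
    ∃ e, ∀ n, (∃ a, ∀ b, R n a b = true) ↔ A W0 p0 (Nat.pair e n) := by
  have h1 : REPred fun w : ℕ => ∃ b, R w.unpair.1 w.unpair.2 b = false := by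
    refine RE.exN (p := fun (w : ℕ) b => R w.unpair.1 w.unpair.2 b = false) ?_
    refine RE.eq ?_ (by fun_prop)
    exact hR.comp (g := fun x : ℕ × ℕ => (x.1.unpair.1, x.1.unpair.2, x.2)) (by fun_prop)
  obtain ⟨e, he⟩ := univ_W0 h1
  refine ⟨e, fun n => ?_⟩
  unfold A
  constructor
  · rintro ⟨a, ha⟩
    refine ⟨Nat.pair e (Nat.pair n a), by simp [p0], fun s => ?_⟩
    by_contra hc
    rw [Bool.not_eq_false] at hc
    obtain ⟨b, hb⟩ := (he (Nat.pair n a)).2 ⟨s, hc⟩
    rw [Nat.unpair_pair] at hb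
    rw [ha b] at hb
    cases hb
  · rintro ⟨z, hz, h2⟩
    unfold p0 at hz
    obtain ⟨h3, h4⟩ := Nat.pair_eq_pair.1 hz
    refine ⟨z.unpair.2.unpair.2, fun b => ?_⟩
    by_contra hc
    rw [Bool.not_eq_true] at hc
    obtain ⟨s, hs⟩ := (he z.unpair.2).1 ⟨b, by rw [h4]; exact hc⟩
    have h5 : Nat.pair e z.unpair.2 = z := by rw [← h3]; exact Nat.pair_unpair z
    rw [h5, h2 s] at hs
    cases hs

end Pool.Agent.H645R2.HT
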